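import Pool.Agent.Y142.SI.Stm
import Pool.Agent.Y297.SS.CF
import Pool.Agent.Y674.ZS.SPL

/-!
Project Y142-SI, task SUBF: factors over the `ℓ`-adic numbers are the same as stable sets of roots.
-/

set_option autoImplicit false

open Polynomial NumberField IsDedekindDomain
open Pool.Agent.Y142.ZO Pool.Agent.Y142.ZI Pool.Agent.Y142.SS Pool.Agent.Y971.ZI

namespace Pool.Agent.Y363.SI

open Pool.Agent.Y297.SS (q0 mem_q0 q0_prime q0_max l_mem_q0 norm_le_one inert_fix)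

theorem aeval_smul {P : ℤ[X]} (g : GK ℚ) {w : 𝓞 QQ} (hw : aeval w P = 0) :
    aeval (g • w) P = 0 := by
  have h1 := hom_eval₂ P (algebraMap ℤ (𝓞 QQ))
    (MulSemiringAction.toRingHom (GK ℚ) (𝓞 QQ) g) w
  rw [RingHom.ext_int ((MulSemiringAction.toRingHom (GK ℚ) (𝓞 QQ) g).comp
    (algebraMap ℤ (𝓞 QQ))) (algebraMap ℤ (𝓞 QQ))] at h1
  have h2 : eval₂ (algebraMap ℤ (𝓞 QQ)) w P = 0 := hw
  rw [h2, map_zero] at h1
  exact h1.symm

/-- congruent roots are equal -/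
theorem root_inj {P a b : ℤ[X]} {N : ℤ} (hab : a * P + b * derivative P = C N) (hN : N ≠ 0)
    {ℓ : ℕ} (hℓ : ℓ.Prime) (hlt : N.natAbs < ℓ) (𝔮 : Ideal (𝓞 QQ)) (h𝔮 : 𝔮.IsPrime)
    (hℓq : (ℓ : 𝓞 QQ) ∈ 𝔮) (w w' : 𝓞 QQ) (hw : aeval w P = 0) (hw' : aeval w' P = 0)
    (hg : w' - w ∈ 𝔮) : w' = w := by
  by_contra hne
  have h1 : (P.map (algebraMap ℤ (𝓞 QQ))).IsRoot w := by
    rw [IsRoot.def, eval_map]
    exact hw
  obtain ⟨G, hG⟩ := dvd_iff_isRoot.2 h1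
  have h2 : eval w' G = 0 := by
    have h3 : eval w' (P.map (algebraMap ℤ (𝓞 QQ))) = 0 := by
      rw [eval_map]
      exact hw'
    rw [hG, eval_mul, eval_sub, eval_X, eval_C] at h3
    exact (mul_eq_zero.1 h3).resolve_left (sub_ne_zero.2 hne)
  have h3 : eval w' (derivative (P.map (algebraMap ℤ (𝓞 QQ)))) ∈ 𝔮 := by
    rw [hG, derivative_mul, derivative_sub, derivative_X, derivative_C, sub_zero, one_mul,
      eval_add, h2, zero_add, eval_mul, eval_sub, eval_X, eval_C]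
    exact 𝔮.mul_mem_right _ hg
  have h4 : ((N : ℤ) : 𝓞 QQ) ∈ 𝔮 := by
    have h5 := congrArg (fun r : ℤ[X] => eval w' (r.map (algebraMap ℤ (𝓞 QQ)))) hab
    have h6 : eval w' (P.map (algebraMap ℤ (𝓞 QQ))) = 0 := by
      rw [eval_map]
      exact hw'
    simp only [Polynomial.map_add, Polynomial.map_mul, ← Polynomial.derivative_map, eval_add,
      eval_mul, h6, mul_zero, zero_add, Polynomial.map_C, eval_C] at h5
    rw [eq_intCast] at h5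
    rw [← h5]
    exact 𝔮.mul_mem_left _ h3
  have hcop : IsCoprime N (ℓ : ℤ) := by
    rw [Int.isCoprime_iff_gcd_eq_one, Int.gcd, Int.natAbs_natCast]
    exact (Nat.coprime_comm.1 ((Nat.Prime.coprime_iff_not_dvd hℓ).2 fun h =>
      absurd (Nat.le_of_dvd (Int.natAbs_pos.2 hN) h) (by omega)))
  obtain ⟨u, v, huv⟩ := hcop
  apply h𝔮.ne_top
  rw [Ideal.eq_top_iff_one]
  have h5 : (1 : 𝓞 QQ) = (u : 𝓞 QQ) * (N : 𝓞 QQ) + (v : 𝓞 QQ) * (ℓ : 𝓞 QQ) := by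
    exact_mod_cast congrArg (fun z : ℤ => (z : 𝓞 QQ)) huv.symm
  rw [h5]
  exact 𝔮.add_mem (𝔮.mul_mem_left _ h4) (𝔮.mul_mem_left _ hℓq)

/-- an element which is fixed by a Frobenius element is congruent to an integer -/
theorem congr_int {ℓ : ℕ} [hfact : Fact ℓ.Prime] {𝔔 : Ideal (𝓞 QQ)} (hmax : 𝔔.IsMaximal)
    (hmem : (ℓ : 𝓞 QQ) ∈ 𝔔) {c : 𝓞 QQ} (hc : c - c ^ ℓ ∈ 𝔔) : ∃ n : ℕ, c - (n : 𝓞 QQ) ∈ 𝔔 := by
  let _ : Field ((𝓞 QQ) ⧸ 𝔔) := Ideal.Quotient.field 𝔔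
  have hchar : CharP ((𝓞 QQ) ⧸ 𝔔) ℓ := by
    rw [CharP.charP_iff_prime_eq_zero hfact.out]
    have h1 : Ideal.Quotient.mk 𝔔 (ℓ : 𝓞 QQ) = 0 := Ideal.Quotient.eq_zero_iff_mem.mpr hmem
    rwa [map_natCast] at h1
  set φ : ZMod ℓ →+* (𝓞 QQ) ⧸ 𝔔 := ZMod.castHom dvd_rfl _ with hφ
  have h1 : (Ideal.Quotient.mk 𝔔 c) ^ ℓ = Ideal.Quotient.mk 𝔔 c := by
    rw [← map_pow]
    exact (Ideal.Quotient.eq.mpr hc).symm
  obtain ⟨a, ha⟩ := Pool.Agent.Y674.ZS.mem_prime ℓ φ _ h1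
  refine ⟨a.val, Ideal.Quotient.eq.1 ?_⟩
  rw [← ha, map_natCast]
  have h2 : φ ((a.val : ℕ) : ZMod ℓ) = ((a.val : ℕ) : (𝓞 QQ) ⧸ 𝔔) := map_natCast φ _
  rw [← h2, ZMod.natCast_zmod_val]

/-- sets of roots which are stable under a Frobenius element are stable under the decomposition
group -/
theorem stable {P a b : ℤ[X]} {N : ℤ} (hab : a * P + b * derivative P = C N) (hN : N ≠ 0)
    {ℓ : ℕ} [hfact : Fact ℓ.Prime] (hlt : N.natAbs < ℓ) {𝔮 : Ideal (𝓞 QQ)} (hmax : 𝔮.IsMaximal)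
    (hmem : (ℓ : 𝓞 QQ) ∈ 𝔮) (σ g : GK ℚ) (hσ : ∀ x : 𝓞 QQ, σ • x - x ^ ℓ ∈ 𝔮)
    (hg : ∀ x : 𝓞 QQ, x ∈ 𝔮 → g • x ∈ 𝔮) (S : Finset (𝓞 QQ)) (hS : ∀ w ∈ S, aeval w P = 0)
    (hσS : ∀ w ∈ S, σ • w ∈ S) : ∀ w ∈ S, g • w ∈ S := by
  classical
  intro w hw
  set H : (𝓞 QQ)[X] := ∏ v ∈ S, (X - C v) with hH
  set s : 𝓞 QQ →+* 𝓞 QQ := MulSemiringAction.toRingHom (GK ℚ) (𝓞 QQ) σ with hs
  set γ : 𝓞 QQ →+* 𝓞 QQ := MulSemiringAction.toRingHom (GK ℚ) (𝓞 QQ) g with hγ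
  have hinj : Function.Injective (fun v : 𝓞 QQ => σ • v) := MulAction.injective σ
  have him : S.image (fun v => σ • v) = S := by
    apply Finset.eq_of_subset_of_card_le
    · intro v hv
      obtain ⟨u, hu, rfl⟩ := Finset.mem_image.1 hv
      exact hσS u hu
    · rw [Finset.card_image_of_injective _ hinj]
  have hHσ : H.map s = H := by
    rw [hH, Polynomial.map_prod]
    have h1 : ∏ v ∈ S, (X - C v : (𝓞 QQ)[X]).map s = ∏ v ∈ S, (X - C (σ • v)) := by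
      refine Finset.prod_congr rfl fun v _ => ?_
      rw [Polynomial.map_sub, Polynomial.map_X, Polynomial.map_C]
      rfl
    rw [h1]
    conv_rhs => rw [← him]
    rw [Finset.prod_image fun x _ y _ h => hinj h]
  have hco : ∀ i, H.coeff i - γ (H.coeff i) ∈ 𝔮 := by
    intro i
    have h1 : σ • H.coeff i = H.coeff i := by
      have h2 := congrArg (fun p => coeff p i) hHσ
      rwa [Polynomial.coeff_map] at h2
    have h2 := hσ (H.coeff i)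
    rw [h1] at h2
    obtain ⟨n, hn⟩ := congr_int hmax hmem h2
    have h3 := hg _ hn
    have h4 : g • (H.coeff i - (n : 𝓞 QQ)) = γ (H.coeff i) - (n : 𝓞 QQ) := by
      show γ (H.coeff i - (n : 𝓞 QQ)) = _
      rw [map_sub, map_natCast]
    rw [h4] at h3
    have h5 := 𝔮.sub_mem hn h3
    rwa [sub_sub_sub_cancel_right] at h5
  have h0 : eval (γ w) (H.map γ) = 0 := by
    rw [eval_map, eval₂_hom]
    have h1 : eval w H = 0 := by
      rw [hH, eval_prod]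
      exact Finset.prod_eq_zero hw (by rw [eval_sub, eval_X, eval_C, sub_self])
    rw [h1, map_zero]
  have h1 : eval (γ w) H ∈ 𝔮 := by
    have h2 : eval (γ w) H = eval (γ w) (H - H.map γ) := by rw [eval_sub, h0, sub_zero]
    rw [h2, eval_eq_sum_range]
    refine Ideal.sum_mem _ fun i _ => 𝔮.mul_mem_right _ ?_
    rw [coeff_sub, Polynomial.coeff_map]
    exact hco i
  rw [hH, eval_prod, hmax.isPrime.prod_mem_iff] at h1
  obtain ⟨v, hv, h2⟩ := h1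
  rw [eval_sub, eval_X, eval_C] at h2
  have h3 : γ w = v := root_inj hab hN hfact.out hlt 𝔮 hmax.isPrime hmem v (γ w) (hS v hv)
    (aeval_smul g (hS w hw)) h2
  show γ w ∈ S
  rw [h3]
  exact hv

/-- **Task SUBF.** -/
theorem t (hLF : S_LF) : Pool.Agent.Y142.SI.S_SUBF := by
  classical
  intro Q hQm hQs
  obtain ⟨D, hD0, P, hPm, hP⟩ := exists_scale Q hQm
  have hDQ : (D : ℚ) ≠ 0 := by exact_mod_cast hD0.ne'
  have hDQQ : (D : QQ) ≠ 0 := by exact_mod_cast hD0.ne'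
  have hPsep : (P.map (Int.castRingHom ℚ)).Separable := by
    rw [hP, separable_def, derivative_scale Q _]
    exact isCoprime_scaleRoots _ _ _ (isUnit_iff_ne_zero.mpr hDQ) hQs
  obtain ⟨N, hN0, a, b, hab⟩ := sep_bound P hPsep
  refine ⟨N.natAbs, ?_⟩
  intro ℓ hℓ hfact σ hfrob
  have hℓp : ℓ.Prime := hfact.out
  have key' : ∀ x : QQ, aeval x Q = 0 → ∃ w : 𝓞 QQ, (w : QQ) = D * x ∧ aeval (w : QQ) P = 0 := by
    intro x hx
    have h3 := scaleRoots_eval₂_mul (p := Q) (algebraMap ℚ QQ) x (D : ℚ)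
    rw [← hP, map_natCast, eval₂_map] at h3
    have h5 : eval₂ (algebraMap ℚ QQ) x Q = 0 := hx
    rw [h5, mul_zero] at h3
    have h4 : aeval ((D : QQ) * x) P = 0 := by
      rw [RingHom.ext_int ((algebraMap ℚ QQ).comp (Int.castRingHom ℚ)) (algebraMap ℤ QQ)] at h3
      exact h3
    exact ⟨⟨(D : QQ) * x, P, hPm, h4⟩, rfl, h4⟩
  have hdown : ∀ w : 𝓞 QQ, aeval (w : QQ) P = 0 → aeval w P = 0 := by
    intro w hw
    apply RingOfIntegers.coe_injective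
    rw [map_zero, ← hw]
    exact (aeval_algebraMap_apply QQ w P).symm
  obtain ⟨ι₀⟩ := emb ℓ
  obtain ⟨τ, hτ⟩ := hLF ℓ
  obtain ⟨σ₀, hσ₀⟩ := Pool.Agent.Y142.ZS.restrict0 ℓ ι₀ τ
  have hF0 := (Pool.Agent.Y726.ZI.frobAt_iff hℓp σ₀).1
    (Pool.Agent.Y297.SS.frob0 ℓ ι₀ τ hτ σ₀ hσ₀)
  obtain ⟨ρ, i, hi, hσ⟩ := Pool.Agent.W401.Frob.conj_frob (Pool.Agent.Y726.ZI.pv ℓ hℓp) σ₀ σ
    hF0 ((Pool.Agent.Y726.ZI.frobAt_iff hℓp σ).1 hfrob)
  set ι : QQ →+* AlgebraicClosure ℚ_[ℓ] := ι₀.comp ((ρ⁻¹ : GK ℚ) : QQ →+* QQ) with hι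
  set σ' : GK ℚ := ρ * σ₀ * ρ⁻¹ with hσ'
  have hA : ∀ x : QQ, τ (ι x) = ι (σ' x) := by
    intro x
    show τ (ι₀ ((ρ⁻¹ : GK ℚ) x)) = ι₀ ((ρ⁻¹ : GK ℚ) ((ρ * σ₀ * ρ⁻¹) x))
    rw [hσ₀]
    congr 1
    rw [← AlgEquiv.mul_apply ρ⁻¹ (ρ * σ₀ * ρ⁻¹) x, ← mul_assoc, ← mul_assoc, inv_mul_cancel,
      one_mul]
    rfl
  have hB : ∀ x : QQ, aeval x Q = 0 → σ' x = σ x := by
    intro x hx
    obtain ⟨w, hwx, hw⟩ := key' x hx
    obtain ⟨𝔮, h𝔮, h𝔮v, hi'⟩ := hi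
    have hℓq : (ℓ : 𝓞 QQ) ∈ 𝔮 := by
      have h1 : (ℓ : 𝓞 ℚ) ∈ (Pool.Agent.Y726.ZI.pv ℓ hℓp).asIdeal :=
        Ideal.mem_span_singleton_self _
      rw [← h𝔮v, Ideal.mem_comap, map_natCast] at h1
      exact h1
    have h1 := inert_fix hab hN0 hℓp hℓ i 𝔮 h𝔮.isPrime hℓq hi' w (hdown w hw)
    have h2 : i (w : QQ) = (w : QQ) := congrArg (fun z : 𝓞 QQ => (z : QQ)) h1
    rw [hwx, map_mul, map_natCast] at h2
    have h3 : i x = x := mul_left_cancel₀ hDQQ h2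
    rw [hσ, AlgEquiv.mul_apply (ρ * σ₀ * ρ⁻¹) i x, h3]
  have hC : ∀ x : 𝓞 QQ, σ' • x - x ^ ℓ ∈ q0 ℓ ι := by
    intro x
    rw [mem_q0]
    have h1 : (((σ' • x - x ^ ℓ : 𝓞 QQ)) : QQ) = σ' (x : QQ) - (x : QQ) ^ ℓ := rfl
    rw [h1, map_sub, map_pow, ← hA]
    exact hτ _ (norm_le_one ℓ _ (x.2.map ι.toIntAlgHom))
  refine ⟨ι, ?_, ?_⟩
  · intro R _ x hx hRx
    rw [← hB x hx, ← hA x]
    have h4 : aeval (τ (ι x)) R = τ (aeval (ι x) R) :=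
      Polynomial.aeval_algHom_apply τ.toAlgHom (ι x) R
    rw [h4, hRx, map_zero]
  intro T hTQ hσT
  have hTfin : T.Finite := by
    refine (Q.rootSet QQ).toFinite.subset fun x hx => ?_
    exact (mem_rootSet.2 ⟨hQm.ne_zero, hTQ x hx⟩)
  -- stability under the decomposition group
  have hdiv : Function.Injective (fun w : 𝓞 QQ => (w : QQ) / D) := fun w₁ w₂ h =>
    RingOfIntegers.coe_injective ((div_left_inj' hDQQ).mp h)
  set S : Finset (𝓞 QQ) := (hTfin.preimage hdiv.injOn).toFinset with hS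
  have hSm : ∀ w : 𝓞 QQ, w ∈ S ↔ (w : QQ) / D ∈ T := by
    intro w
    rw [hS, Set.Finite.mem_toFinset]
    rfl
  have hcoe : ∀ (g : GK ℚ) (w : 𝓞 QQ), ((g • w : 𝓞 QQ) : QQ) / D = g ((w : QQ) / D) := by
    intro g w
    rw [map_div₀, map_natCast]
    rfl
  have hSP : ∀ w ∈ S, aeval w P = 0 := by
    intro w hw
    have h1 := (hSm w).1 hw
    obtain ⟨w', hw', hw2⟩ := key' _ (hTQ _ h1)
    rw [mul_div_cancel₀ _ hDQQ] at hw'
    rw [← RingOfIntegers.coe_injective hw']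
    exact hdown w' hw2
  have hst : ∀ g : GK ℚ, (∀ x : 𝓞 QQ, x ∈ q0 ℓ ι → g • x ∈ q0 ℓ ι) → ∀ x ∈ T, g x ∈ T := by
    intro g hg x hx
    obtain ⟨w, hwx, -⟩ := key' x (hTQ x hx)
    have hxw : (w : QQ) / D = x := by rw [hwx, mul_div_cancel_left₀ _ hDQQ]
    have h1 := stable hab hN0 hℓ (q0_max ℓ ι) (l_mem_q0 ℓ ι) σ' g hC hg S hSP (fun v hv => by
      rw [hSm, hcoe, hB _ (hTQ _ ((hSm v).1 hv))]
      exact hσT _ ((hSm v).1 hv)) w (by rw [hSm, hxw]; exact hx)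
    rw [hSm, hcoe, hxw] at h1
    exact h1
  -- the factor
  set Tf : Finset QQ := hTfin.toFinset with hTf
  have hTm : ∀ x, x ∈ Tf ↔ x ∈ T := fun x => Set.Finite.mem_toFinset _
  set R0 : (AlgebraicClosure ℚ_[ℓ])[X] := ∏ x ∈ Tf, (X - C (ι x)) with hR0
  have hfix : ∀ τ' : AlgebraicClosure ℚ_[ℓ] ≃ₐ[ℚ_[ℓ]] AlgebraicClosure ℚ_[ℓ],
      R0.map (τ' : AlgebraicClosure ℚ_[ℓ] →+* AlgebraicClosure ℚ_[ℓ]) = R0 := by
    intro τ'
    obtain ⟨g, hg⟩ := Pool.Agent.Y142.ZS.restrict0 ℓ ι τ'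
    have hgT := hst g (fun x hx => by
      rw [mem_q0] at hx ⊢
      have h1 : ((g • x : 𝓞 QQ) : QQ) = g (x : QQ) := rfl
      have h2 : ‖τ' (ι (x : QQ))‖ = ‖ι (x : QQ)‖ :=
        (spectralNorm_eq_of_equiv (K := ℚ_[ℓ]) (L := PadicAlgCl ℓ) τ' _).symm
      rw [h1, ← hg, h2]
      exact hx)
    have him : Tf.image (fun x => g x) = Tf := by
      apply Finset.eq_of_subset_of_card_le
      · intro v hv
        obtain ⟨u, hu, rfl⟩ := Finset.mem_image.1 hv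
        exact (hTm _).2 (hgT u ((hTm u).1 hu))
      · rw [Finset.card_image_of_injective _ g.injective]
    rw [hR0, Polynomial.map_prod]
    have h1 : ∏ x ∈ Tf, (X - C (ι x) : (AlgebraicClosure ℚ_[ℓ])[X]).map
        (τ' : AlgebraicClosure ℚ_[ℓ] →+* AlgebraicClosure ℚ_[ℓ]) =
        ∏ x ∈ Tf, (X - C (ι (g x))) := by
      refine Finset.prod_congr rfl fun x _ => ?_
      rw [Polynomial.map_sub, Polynomial.map_X, Polynomial.map_C, ← hg]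
      rfl
    rw [h1]
    conv_rhs => rw [← him]
    rw [Finset.prod_image fun x _ y _ h => g.injective h]
  have hgal : IsGalois ℚ_[ℓ] (AlgebraicClosure ℚ_[ℓ]) := inferInstance
  have hlift : R0 ∈ Polynomial.lifts (algebraMap ℚ_[ℓ] (AlgebraicClosure ℚ_[ℓ])) := by
    rw [Polynomial.lifts_iff_coeff_lifts]
    intro n
    refine (InfiniteGalois.mem_range_algebraMap_iff_fixed _).2 fun τ' => ?_
    have h2 := congrArg (fun p => coeff p n) (hfix τ')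
    rwa [Polynomial.coeff_map] at h2
  obtain ⟨R, hR⟩ := (Polynomial.mem_lifts _).1 hlift
  have hR0m : R0.Monic := monic_prod_X_sub_C _ _
  have hRm : R.Monic := Polynomial.monic_of_injective
    (algebraMap ℚ_[ℓ] (AlgebraicClosure ℚ_[ℓ])).injective (by rw [hR]; exact hR0m)
  have hroot : ∀ x : QQ, aeval x Q = 0 → eval (ι x) ((Q.map (algebraMap ℚ ℚ_[ℓ])).map
      (algebraMap ℚ_[ℓ] (AlgebraicClosure ℚ_[ℓ]))) = 0 := by
    intro x hx
    rw [Polynomial.map_map, eval_map]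
    have h1 := congrArg ι (show eval₂ (algebraMap ℚ QQ) x Q = 0 from hx)
    rw [hom_eval₂, map_zero] at h1
    rw [← h1]
    congr 1
    exact RingHom.ext_rat _ _
  refine ⟨R, hRm, ?_, ?_, ?_⟩
  · rw [← Polynomial.map_dvd_map' (algebraMap ℚ_[ℓ] (AlgebraicClosure ℚ_[ℓ])), hR, hR0]
    refine Finset.prod_dvd_of_coprime ?_ ?_
    · intro x _ y _ hxy
      exact Polynomial.pairwise_coprime_X_sub_C ι.injective hxy
    · intro x hx
      exact dvd_iff_isRoot.2 (hroot x (hTQ x ((hTm x).1 hx)))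
  · rw [← natDegree_map (algebraMap ℚ_[ℓ] (AlgebraicClosure ℚ_[ℓ])), hR, hR0,
      natDegree_finsetProd_X_sub_C_eq_card, Set.ncard_eq_toFinset_card T hTfin]
  · intro x _
    have h1 : aeval (ι x) R = ∏ y ∈ Tf, (ι x - ι y) := by
      rw [aeval_def, ← eval_map, hR, hR0, eval_prod]
      refine Finset.prod_congr rfl fun y _ => ?_
      rw [eval_sub, eval_X, eval_C]
    rw [h1, Finset.prod_eq_zero_iff]
    constructor
    · rintro ⟨y, hy, hxy⟩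
      rw [ι.injective (sub_eq_zero.1 hxy)]
      exact (hTm y).1 hy
    · intro hx
      exact ⟨x, (hTm x).2 hx, sub_self _⟩

end Pool.Agent.Y363.SI
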